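import Pool.Agent.Helper534.NS.Triv

set_option autoImplicit false

namespace Pool.Agent.Helper534.NS

open Pool.Agent.Helper499.NC
open scoped ENNReal InnerProductSpace ComplexConjugate

noncomputable section

/-- strictly block upper triangular with respect to blocks of length `N` -/
def BS (N : ℕ) (C : Op) : Prop := ∀ i j, ent C i j ≠ 0 → i / N < j / N

/-- the two systems of positions are interleaved block by block -/
def Interl (N : ℕ) (p q : ℕ → ℕ → ℕ) : Prop :=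
  ∀ l m' m, m' / N < m / N → p l m' < p l m ∧ p l m' < q l m ∧ q l m' < p l m ∧ q l m' < q l m

theorem R_ev_ne' (p : ℕ → ℕ → ℕ) (hp : Inj p) (n : ℕ) (hn : ¬ ∃ l m, p l m = n) :
    R p hp (ev n) = 0 := by
  apply R_ev_ne
  intro l m h
  exact hn ⟨l, m, h⟩

theorem rot_ent_zero (N : ℕ) (p q : ℕ → ℕ → ℕ) (hp : Inj p) (hq : Inj q)
    {B : ℕ → Op} (hB : Bd B) (hS : ∀ l, BS N (B l - 1)) (c s : ℝ)
    (l m i : ℕ)
    (hmin : ∀ m', m' / N < m / N → (p l m' < i ∧ q l m' < i)) :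
    (((c : ℂ) • J p hp + (s : ℂ) • J q hq) ((fd B - 1) (lp.single 2 l (ev m))) : ℕ → ℂ) i = 0 := by
  have h1 : (fd B - 1) (lp.single 2 l (ev m)) = lp.single 2 l ((B l - 1) (ev m)) := by
    rw [ContinuousLinearMap.sub_apply, fd_single hB, ContinuousLinearMap.one_apply]
    rw [← lp.single_sub]
    rfl
  rw [h1]
  rw [ContinuousLinearMap.add_apply, ContinuousLinearMap.smul_apply,
    ContinuousLinearMap.smul_apply, J_single, J_single]
  have key : ∀ (φ : ℕ → ℕ) (hφ : Function.Injective φ), (∀ m', m' / N < m / N → φ m' < i) →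
      (V φ hφ ((B l - 1) (ev m)) : ℕ → ℂ) i = 0 := by
    intro φ hφ hlt
    by_cases hi : ∃ k, φ k = i
    · obtain ⟨k, rfl⟩ := hi
      rw [V_apply_eq]
      by_contra hne
      have h2 := hS l k m hne
      exact lt_irrefl _ (hlt k h2)
    · push Not at hi
      exact V_apply_ne _ _ _ _ hi
  rw [lp.coeFn_add, Pi.add_apply, lp.coeFn_smul, lp.coeFn_smul, Pi.smul_apply, Pi.smul_apply,
    key (p l) _ fun m' h => (hmin m' h).1, key (q l) _ fun m' h => (hmin m' h).2]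
  simp

theorem UT_rot (N : ℕ) (p q : ℕ → ℕ → ℕ) (hp : Inj p) (hq : Inj q)
    (hd : ∀ l m l' m', p l m ≠ q l' m')
    (hI : Interl N p q) {B : ℕ → Op} (hB : Bd B) (hS : ∀ l, BS N (B l - 1)) (c s : ℝ) :
    UT (Ad ((c : ℂ) • J p hp + (s : ℂ) • J q hq) ((c : ℂ) • R p hp + (s : ℂ) • R q hq) (fd B)) := by
  intro i j hij
  unfold ent Ad
  have hex : (((1 : Op) (ev j) : Hs) : ℕ → ℂ) i = 0 := by
    show (ev j : ℕ → ℂ) i = 0
    rw [ev_apply, if_neg (by omega)]
  rw [ContinuousLinearMap.add_apply, lp.coeFn_add, Pi.add_apply, hex, zero_add,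
    ContinuousLinearMap.comp_apply, ContinuousLinearMap.comp_apply,
    ContinuousLinearMap.add_apply ((c : ℂ) • R p hp), ContinuousLinearMap.smul_apply,
    ContinuousLinearMap.smul_apply]
  by_cases hj : ∃ l m, p l m = j
  · obtain ⟨l, m, rfl⟩ := hj
    have hq0 : R q hq (ev (p l m)) = 0 := R_ev_ne q hq _ fun l' m' h => hd l m l' m' h.symm
    rw [hq0, smul_zero, add_zero, R_ev_self, map_smul, map_smul, lp.coeFn_smul, Pi.smul_apply,
      rot_ent_zero N p q hp hq hB hS c s l m i (fun m' h' =>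
        ⟨lt_trans (hI l m' m h').1 hij, lt_trans (hI l m' m h').2.2.1 hij⟩), smul_zero]
  · rw [R_ev_ne' p hp j hj, smul_zero, zero_add]
    by_cases hj2 : ∃ l m, q l m = j
    · obtain ⟨l, m, rfl⟩ := hj2
      rw [R_ev_self, map_smul, map_smul, lp.coeFn_smul, Pi.smul_apply,
        rot_ent_zero N p q hp hq hB hS c s l m i (fun m' h' =>
        ⟨lt_trans (hI l m' m h').2.1 hij, lt_trans (hI l m' m h').2.2.2 hij⟩), smul_zero]
    · rw [R_ev_ne' q hq j hj2, smul_zero, map_zero, map_zero]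
      rfl

theorem rot_left_inv (p q : ℕ → ℕ → ℕ) (hp : Inj p) (hq : Inj q)
    (hd : ∀ l m l' m', p l m ≠ q l' m') (c s : ℝ) (hcs : c ^ 2 + s ^ 2 = 1) :
    ((c : ℂ) • R p hp + (s : ℂ) • R q hq) ∘L ((c : ℂ) • J p hp + (s : ℂ) • J q hq) = 1 := by
  have h1 := R_J p hp
  have h2 := R_J q hq
  have h3 := R_J_orth p q hp hq hd
  have h4 := R_J_orth q p hq hp (fun l m l' m' h => hd l' m' l m h.symm)
  have h1' : ∀ x, R p hp (J p hp x) = x := fun x => by
    rw [← ContinuousLinearMap.comp_apply, h1]; rfl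
  have h2' : ∀ x, R q hq (J q hq x) = x := fun x => by
    rw [← ContinuousLinearMap.comp_apply, h2]; rfl
  have h3' : ∀ x, R p hp (J q hq x) = 0 := fun x => by
    rw [← ContinuousLinearMap.comp_apply, h3]; rfl
  have h4' : ∀ x, R q hq (J p hp x) = 0 := fun x => by
    rw [← ContinuousLinearMap.comp_apply, h4]; rfl
  ext x : 1
  simp only [ContinuousLinearMap.comp_apply, ContinuousLinearMap.add_apply,
    ContinuousLinearMap.smul_apply, map_add, map_smul, h1', h2', h3', h4', smul_zero, add_zero,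
    zero_add, ContinuousLinearMap.one_apply, smul_smul]
  rw [← add_smul]
  have : ((c : ℂ) * c + s * s) = 1 := by
    have h5 : ((c ^ 2 + s ^ 2 : ℝ) : ℂ) = 1 := by rw [hcs]; norm_num
    push_cast at h5
    rw [← h5]; ring
  rw [this, one_smul]

theorem BS_inv {N : ℕ} {B B' : Op} (hB : BS N (B - 1)) (h1 : B * B' = 1) (hU : UT B') :
    BS N (B' - 1) := by
  intro i j hij
  have e : B' - 1 = -((B - 1) * B') := by
    rw [sub_mul, h1, one_mul]
    abel
  by_contra hne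
  apply hij
  rw [e, ent_neg]
  have h := ent_mul_hasSum (B - 1) B' i j
  have h0 : (fun k => ent (B - 1) i k * ent B' k j) = fun _ => 0 := by
    funext k
    by_cases h2 : ent (B - 1) i k = 0
    · rw [h2, zero_mul]
    · have h3 := hB i k h2
      by_cases h4 : j < k
      · rw [hU k j h4, mul_zero]
      · exfalso
        apply hne
        exact lt_of_lt_of_le h3 (Nat.div_le_div_right (not_lt.1 h4))
  rw [h0] at h
  rw [h.unique hasSum_zero, neg_zero]

theorem norm_lin_le {E F : Type} [NormedAddCommGroup E] [NormedSpace ℂ E] [NormedAddCommGroup F]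
    [NormedSpace ℂ F] (A B : E →L[ℂ] F) (hA : ‖A‖ ≤ 1) (hB : ‖B‖ ≤ 1) (c s : ℝ) :
    ‖(c : ℂ) • A + (s : ℂ) • B‖ ≤ |c| + |s| := by
  calc ‖(c : ℂ) • A + (s : ℂ) • B‖ ≤ ‖(c : ℂ) • A‖ + ‖(s : ℂ) • B‖ := norm_add_le _ _
    _ = |c| * ‖A‖ + |s| * ‖B‖ := by
        rw [norm_smul, norm_smul]
        simp
    _ ≤ |c| * 1 + |s| * 1 := by gcongr
    _ = |c| + |s| := by ring

theorem Ad_sub_le (W W₁ : Ks →L[ℂ] Hs) (W' W₁' : Hs →L[ℂ] Ks) (X : Ks →L[ℂ] Ks) (a b c d e : ℝ)
    (h1 : ‖W - W₁‖ ≤ a) (h2 : ‖W'‖ ≤ b) (h3 : ‖W₁‖ ≤ c) (h4 : ‖W' - W₁'‖ ≤ d) (h5 : ‖X - 1‖ ≤ e) :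
    ‖Ad W W' X - Ad W₁ W₁' X‖ ≤ a * e * b + c * e * d := by
  have ha : 0 ≤ a := (norm_nonneg _).trans h1
  have hb : 0 ≤ b := (norm_nonneg _).trans h2
  have hc : 0 ≤ c := (norm_nonneg _).trans h3
  have hd : 0 ≤ d := (norm_nonneg _).trans h4
  have he : 0 ≤ e := (norm_nonneg _).trans h5
  have e1 : Ad W W' X - Ad W₁ W₁' X
      = (W - W₁) ∘L (X - 1) ∘L W' + W₁ ∘L (X - 1) ∘L (W' - W₁') := by
    unfold Ad
    ext v : 1
    simp only [ContinuousLinearMap.sub_apply, ContinuousLinearMap.add_apply,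
      ContinuousLinearMap.comp_apply, map_sub]
    abel
  rw [e1]
  refine (norm_add_le _ _).trans (add_le_add ?_ ?_)
  · calc ‖(W - W₁) ∘L (X - 1) ∘L W'‖ ≤ ‖W - W₁‖ * (‖X - 1‖ * ‖W'‖) :=
        (ContinuousLinearMap.opNorm_comp_le _ _).trans
          (mul_le_mul_of_nonneg_left (ContinuousLinearMap.opNorm_comp_le _ _) (norm_nonneg _))
      _ ≤ a * (e * b) := by gcongr
      _ = a * e * b := by ring
  · calc ‖W₁ ∘L (X - 1) ∘L (W' - W₁')‖ ≤ ‖W₁‖ * (‖X - 1‖ * ‖W' - W₁'‖) :=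
        (ContinuousLinearMap.opNorm_comp_le _ _).trans
          (mul_le_mul_of_nonneg_left (ContinuousLinearMap.opNorm_comp_le _ _) (norm_nonneg _))
      _ ≤ c * (e * d) := by gcongr
      _ = c * e * d := by ring

/-- **Rotation lemma.** A direct sum can be moved to interleaved positions at a cost that depends
only on the bound of the family and its inverse. -/
theorem rotation (N : ℕ) (p q : ℕ → ℕ → ℕ) (hp : Inj p) (hq : Inj q)
    (hd : ∀ l m l' m', p l m ≠ q l' m') (hI : Interl N p q) (C : ℝ) (n : ℕ) (hn : 0 < n)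
    (hnC : 160 * (C + 1) ^ 2 ≤ n)
    {B B' : ℕ → Op} (hB : ∀ l, ‖B l‖ ≤ C) (hB' : ∀ l, ‖B' l‖ ≤ C)
    (h1 : ∀ l, B l * B' l = 1) (h2 : ∀ l, B' l * B l = 1)
    (hU' : ∀ l, UT (B' l)) (hS : ∀ l, BS N (B l - 1)) :
    ∃ g, Triv n g ∧ ds p hp B = g * ds q hq B := by
  have hbB : Bd B := ⟨C, hB⟩
  have hbB' : Bd B' := ⟨C, hB'⟩
  have hC0 : 0 ≤ C := (norm_nonneg _).trans (hB 0)
  have hS' : ∀ l, BS N (B' l - 1) := fun l => BS_inv (hS l) (h1 l) (hU' l)
  let c : ℝ → ℝ := fun t => Real.cos (t * (Real.pi / 2))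
  let s : ℝ → ℝ := fun t => Real.sin (t * (Real.pi / 2))
  have hcs : ∀ t, c t ^ 2 + s t ^ 2 = 1 := fun t => Real.cos_sq_add_sin_sq _
  let W : ℝ → (Ks →L[ℂ] Hs) := fun t => (c t : ℂ) • J p hp + (s t : ℂ) • J q hq
  let W' : ℝ → (Hs →L[ℂ] Ks) := fun t => (c t : ℂ) • R p hp + (s t : ℂ) • R q hq
  have hWW : ∀ t, (W' t) ∘L (W t) = 1 := fun t => rot_left_inv p q hp hq hd _ _ (hcs t)
  have hmulfd : fd B * fd B' = 1 := by
    rw [← fd_mul hbB hbB', ← fd_one]
    exact congrArg fd (funext h1)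
  have hmulfd' : fd B' * fd B = 1 := by
    rw [← fd_mul hbB' hbB, ← fd_one]
    exact congrArg fd (funext h2)
  have hnfd : ∀ {D : ℕ → Op}, (∀ l, ‖D l‖ ≤ C) → ‖fd D - 1‖ ≤ C + 1 := by
    intro D hD
    have hbD : Bd D := ⟨C, hD⟩
    have e : fd D - 1 = fd (fun l => D l - 1) := by rw [fd_sub hbD Bd.one, fd_one]
    rw [e]
    apply norm_fd_le
    intro l
    exact (norm_sub_le _ _).trans (add_le_add (hD l) norm_one_le)
  have habs : ∀ t, |c t| + |s t| ≤ 2 := fun t => by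
    have h3 := Real.abs_cos_le_one (t * (Real.pi / 2))
    have h4 := Real.abs_sin_le_one (t * (Real.pi / 2))
    show |Real.cos (t * (Real.pi / 2))| + |Real.sin (t * (Real.pi / 2))| ≤ 2
    linarith
  have hWn : ∀ t, ‖W t‖ ≤ 2 := fun t =>
    (norm_lin_le _ _ (norm_J_le p hp) (norm_J_le q hq) _ _).trans (habs t)
  have hWn' : ∀ t, ‖W' t‖ ≤ 2 := fun t =>
    (norm_lin_le _ _ (norm_R_le p hp) (norm_R_le q hq) _ _).trans (habs t)
  have hlip : ∀ x y, |c x - c y| + |s x - s y| ≤ 4 * |x - y| := by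
    intro x y
    have h3 := Real.abs_cos_sub_cos_le (x * (Real.pi / 2)) (y * (Real.pi / 2))
    have h4 := Real.abs_sin_sub_sin_le (x * (Real.pi / 2)) (y * (Real.pi / 2))
    have h5 : |x * (Real.pi / 2) - y * (Real.pi / 2)| ≤ 2 * |x - y| := by
      rw [← sub_mul, abs_mul, abs_of_pos (by positivity : (0 : ℝ) < Real.pi / 2), mul_comm]
      gcongr
      have := Real.pi_le_four
      linarith
    show |Real.cos _ - Real.cos _| + |Real.sin _ - Real.sin _| ≤ _
    linarith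
  have hWl : ∀ x y, ‖W x - W y‖ ≤ 4 * |x - y| := by
    intro x y
    have e : W x - W y = ((c x - c y : ℝ) : ℂ) • J p hp + ((s x - s y : ℝ) : ℂ) • J q hq := by
      show ((c x : ℂ) • J p hp + (s x : ℂ) • J q hq) - ((c y : ℂ) • J p hp + (s y : ℂ) • J q hq) = _
      push_cast
      rw [sub_smul, sub_smul]
      abel
    rw [e]
    exact (norm_lin_le _ _ (norm_J_le p hp) (norm_J_le q hq) _ _).trans (hlip x y)
  have hWl' : ∀ x y, ‖W' x - W' y‖ ≤ 4 * |x - y| := by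
    intro x y
    have e : W' x - W' y = ((c x - c y : ℝ) : ℂ) • R p hp + ((s x - s y : ℝ) : ℂ) • R q hq := by
      show ((c x : ℂ) • R p hp + (s x : ℂ) • R q hq) - ((c y : ℂ) • R p hp + (s y : ℂ) • R q hq) = _
      push_cast
      rw [sub_smul, sub_smul]
      abel
    rw [e]
    exact (norm_lin_le _ _ (norm_R_le p hp) (norm_R_le q hq) _ _).trans (hlip x y)
  obtain ⟨g, hg, hg2⟩ := Triv_of_path (fun t => Ad (W t) (W' t) (fd B))
    (fun t => Ad (W t) (W' t) (fd B')) (2 * (C + 1) * 2 + 1) (16 * (C + 1)) n hn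
    (by nlinarith [hnC, hC0, sq_nonneg C])
    (fun t _ _ => UT_rot N p q hp hq hd hI hbB hS _ _)
    (fun t _ _ => UT_rot N p q hp hq hd hI hbB' hS' _ _)
    (fun t _ _ => by
      show Ad (W t) (W' t) (fd B) * Ad (W t) (W' t) (fd B') = 1
      rw [← Ad_mul _ _ (hWW t), hmulfd, Ad_one])
    (fun t _ _ => by
      show Ad (W t) (W' t) (fd B') * Ad (W t) (W' t) (fd B) = 1
      rw [← Ad_mul _ _ (hWW t), hmulfd', Ad_one])
    (fun t _ _ => by
      show ‖Ad (W t) (W' t) (fd B')‖ ≤ _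
      unfold Ad
      calc ‖1 + W t ∘L (fd B' - 1) ∘L W' t‖ ≤ ‖(1 : Op)‖ + ‖W t ∘L (fd B' - 1) ∘L W' t‖ :=
            norm_add_le _ _
        _ ≤ 1 + 2 * ((C + 1) * 2) := by
            refine add_le_add norm_one_le ?_
            calc ‖W t ∘L (fd B' - 1) ∘L W' t‖ ≤ ‖W t‖ * (‖fd B' - 1‖ * ‖W' t‖) :=
                  (ContinuousLinearMap.opNorm_comp_le _ _).trans
                    (mul_le_mul_of_nonneg_left (ContinuousLinearMap.opNorm_comp_le _ _)
                      (norm_nonneg _))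
              _ ≤ 2 * ((C + 1) * 2) := by
                  gcongr
                  · exact hWn t
                  · exact hnfd hB'
                  · exact hWn' t
        _ = 2 * (C + 1) * 2 + 1 := by ring)
    (fun x y _ _ _ _ => by
      show ‖Ad (W x) (W' x) (fd B) - Ad (W y) (W' y) (fd B)‖ ≤ _
      refine (Ad_sub_le (W x) (W y) (W' x) (W' y) (fd B) (4 * |x - y|) 2 2 (4 * |x - y|) (C + 1)
        (hWl x y) (hWn' x) (hWn y) (hWl' x y) (hnfd hB)).trans (le_of_eq ?_)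
      ring)
  refine ⟨g, hg, ?_⟩
  have e0 : Ad (W 0) (W' 0) (fd B) = ds p hp B := by
    have hc : c 0 = 1 := by simp [c]
    have hs : s 0 = 0 := by simp [s]
    have e1 : W 0 = J p hp := by
      show (c 0 : ℂ) • J p hp + (s 0 : ℂ) • J q hq = _
      rw [hc, hs]; simp
    have e2 : W' 0 = R p hp := by
      show (c 0 : ℂ) • R p hp + (s 0 : ℂ) • R q hq = _
      rw [hc, hs]; simp
    rw [e1, e2]; rfl
  have e1 : Ad (W 1) (W' 1) (fd B) = ds q hq B := by
    have hc : c 1 = 0 := by simp [c]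
    have hs : s 1 = 1 := by simp [s]
    have e1 : W 1 = J q hq := by
      show (c 1 : ℂ) • J p hp + (s 1 : ℂ) • J q hq = _
      rw [hc, hs]; simp
    have e2 : W' 1 = R q hq := by
      show (c 1 : ℂ) • R p hp + (s 1 : ℂ) • R q hq = _
      rw [hc, hs]; simp
    rw [e1, e2]; rfl
  rw [← e0, ← e1]
  exact hg2

end

end Pool.Agent.Helper534.NS
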