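import Pool.Agent.Helper534.NS.Diag

set_option autoImplicit false

namespace Pool.Agent.Helper534.NS

open Pool.Agent.Helper499.NC
open scoped ENNReal InnerProductSpace ComplexConjugate

noncomputable section

/-! ### inverses of upper triangular operators -/

theorem UT_apply_ev_hasSum (A : Op) (hA : UT A) (j : ℕ) :
    A (ev j) = ∑ k ∈ Finset.range (j + 1), ent A k j • ev k := by
  have h := hasSum_ev (A (ev j))
  have h2 : HasSum (fun k => ((A (ev j) : Hs) : ℕ → ℂ) k • ev k)
      (∑ k ∈ Finset.range (j + 1), ((A (ev j) : Hs) : ℕ → ℂ) k • ev k) := by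
    apply hasSum_sum_of_ne_finset_zero
    intro k hk
    have hk' : j < k := by simpa using hk
    have h3 := hA k j hk'
    unfold ent at h3
    rw [h3, zero_smul]
  exact h.unique h2

theorem UT_inv {A A' : Op} (hA : UT A) (h1 : A * A' = 1) (h2 : A' * A = 1) : UT A' := by
  intro i j hij
  let S : Submodule ℂ Hs := Submodule.span ℂ (Set.range fun k : Fin (j + 1) => ev k)
  have hfin : FiniteDimensional ℂ S := FiniteDimensional.span_of_finite ℂ (Set.finite_range _)
  have hev : ∀ k, k ≤ j → ev k ∈ S := fun k hk =>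
    Submodule.subset_span ⟨⟨k, by omega⟩, rfl⟩
  have hmap : ∀ x ∈ S, A x ∈ S := by
    intro x hx
    induction hx using Submodule.span_induction with
    | mem x hx =>
      obtain ⟨k, rfl⟩ := hx
      show A (ev k) ∈ S
      rw [UT_apply_ev_hasSum A hA]
      refine Submodule.sum_mem _ fun m hm => Submodule.smul_mem _ _ (hev m ?_)
      have := k.2
      have hm' := Finset.mem_range.1 hm
      omega
    | zero => rw [map_zero]; exact S.zero_mem
    | add x y _ _ hx hy => rw [map_add]; exact S.add_mem hx hy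
    | smul a x _ hx => rw [map_smul]; exact S.smul_mem _ hx
  have hA'A : ∀ x, A' (A x) = x := fun x => by
    have := congrArg (fun T : Op => T x) h2
    simpa using this
  have hAA' : ∀ x, A (A' x) = x := fun x => by
    have := congrArg (fun T : Op => T x) h1
    simpa using this
  let f : S →ₗ[ℂ] S := (A : Hs →ₗ[ℂ] Hs).restrict hmap
  have hf : Function.Injective f := by
    intro x y hxy
    apply Subtype.ext
    have h3 : A x = A y := congrArg Subtype.val hxy
    rw [← hA'A x, h3, hA'A]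
  obtain ⟨y, hy⟩ := (LinearMap.injective_iff_surjective.1 hf) ⟨ev j, hev j le_rfl⟩
  have hy2 : A (y : Hs) = ev j := congrArg Subtype.val hy
  have hy3 : A' (ev j) = y := by rw [← hy2, hA'A]
  unfold ent
  rw [hy3]
  have hz : ∀ x ∈ S, (x : ℕ → ℂ) i = 0 := by
    intro x hx
    induction hx using Submodule.span_induction with
    | mem x hx =>
      obtain ⟨k, rfl⟩ := hx
      have := k.2
      show (ev k : ℕ → ℂ) i = 0
      rw [ev_apply, if_neg (by omega)]
    | zero => rfl
    | add x y _ _ hx hy => rw [lp.coeFn_add, Pi.add_apply, hx, hy, add_zero]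
    | smul a x _ hx => rw [lp.coeFn_smul, Pi.smul_apply, hx, smul_zero]
  exact hz _ y.2

/-! ### products of operators near one -/

/-- `A` is a product of `n` upper triangular operators within `1/2` of the identity. -/
def Triv : ℕ → Op → Prop
  | 0, A => A = 1
  | n + 1, A => ∃ B C : Op, (UT B ∧ ‖B - 1‖ ≤ 1 / 2) ∧ Triv n C ∧ A = B * C

theorem Triv_zero : Triv 0 1 := rfl

theorem Triv_mul {n m : ℕ} {A B : Op} (hA : Triv n A) (hB : Triv m B) : Triv (n + m) (A * B) := by
  induction n generalizing A with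
  | zero =>
    have h : A = 1 := hA
    rw [h, one_mul, Nat.zero_add]
    exact hB
  | succ n ih =>
    obtain ⟨X, C, hX, hC, rfl⟩ := hA
    have h := ih hC
    have e : n + 1 + m = (n + m) + 1 := by omega
    rw [e]
    exact ⟨X, C * B, hX, h, by rw [mul_assoc]⟩

theorem Triv_one_of {B : Op} (h : UT B) (h2 : ‖B - 1‖ ≤ 1 / 2) : Triv 1 B :=
  ⟨B, 1, ⟨h, h2⟩, rfl, by rw [mul_one]⟩

theorem Triv_id (n : ℕ) : Triv n 1 := by
  induction n with
  | zero => rfl
  | succ n ih => exact ⟨1, 1, ⟨UT_one, by simp⟩, ih, by rw [one_mul]⟩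

theorem Triv_mono {n m : ℕ} (h : n ≤ m) {A : Op} (hA : Triv n A) : Triv m A := by
  obtain ⟨k, rfl⟩ := Nat.exists_eq_add_of_le h
  have := Triv_mul hA (Triv_id k)
  rwa [mul_one] at this

theorem Triv_UT {n : ℕ} {A : Op} (hA : Triv n A) : UT A := by
  induction n generalizing A with
  | zero => rw [show A = 1 from hA]; exact UT_one
  | succ n ih =>
    obtain ⟨X, C, hX, hC, rfl⟩ := hA
    exact UT_mul hX.1 (ih hC)

theorem norm_one_le : ‖(1 : Op)‖ ≤ 1 :=
  ContinuousLinearMap.opNorm_le_bound _ zero_le_one fun x => by simp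

theorem Triv_norm {n : ℕ} {A : Op} (hA : Triv n A) : ‖A‖ ≤ 2 ^ n := by
  induction n generalizing A with
  | zero => rw [show A = 1 from hA]; simpa using norm_one_le
  | succ n ih =>
    obtain ⟨X, C, hX, hC, rfl⟩ := hA
    have h1 : ‖X‖ ≤ 2 := by
      calc ‖X‖ = ‖(X - 1) + 1‖ := by rw [sub_add_cancel]
        _ ≤ ‖X - 1‖ + ‖(1 : Op)‖ := norm_add_le _ _
        _ ≤ 1 / 2 + 1 := add_le_add hX.2 norm_one_le
        _ ≤ 2 := by norm_num
    calc ‖X * C‖ ≤ ‖X‖ * ‖C‖ := norm_mul_le _ _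
      _ ≤ 2 * 2 ^ n := by gcongr; exact ih hC
      _ = 2 ^ (n + 1) := by ring

/-- the direct sum of `Triv n` operators is `Triv n` -/
theorem Triv_ds (p : ℕ → ℕ → ℕ) (hp : Inj p) (hmono : ∀ l, StrictMono (p l)) (n : ℕ)
    {A : ℕ → Op} (hA : ∀ l, Triv n (A l)) : Triv n (ds p hp A) := by
  induction n generalizing A with
  | zero =>
    have h : A = fun _ => 1 := funext fun l => hA l
    rw [h, ds_one]
    rfl
  | succ n ih =>
    choose X C hX hC hXC using hA
    have hAe : A = fun l => X l * C l := funext hXC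
    have hbX : Bd X := ⟨2, fun l => by
      calc ‖X l‖ = ‖(X l - 1) + 1‖ := by rw [sub_add_cancel]
        _ ≤ ‖X l - 1‖ + ‖(1 : Op)‖ := norm_add_le _ _
        _ ≤ 1 / 2 + 1 := add_le_add (hX l).2 norm_one_le
        _ ≤ 2 := by norm_num⟩
    have hbC : Bd C := ⟨2 ^ n, fun l => Triv_norm (hC l)⟩
    rw [hAe, ds_mul p hp hbX hbC]
    exact ⟨_, _, ⟨UT_ds p hp hmono hbX fun l => (hX l).1,
      norm_ds_sub_one_le p hp fun l => (hX l).2⟩, ih hC, rfl⟩

/-- a Lipschitz path of upper triangular invertible operators with bounded inverses -/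
theorem Triv_of_path (γ δ : ℝ → Op) (K L : ℝ) (n : ℕ) (hn : 0 < n) (h : 2 * K * L ≤ n)
    (hU : ∀ t, 0 ≤ t → t ≤ 1 → UT (γ t)) (hU' : ∀ t, 0 ≤ t → t ≤ 1 → UT (δ t))
    (h1 : ∀ t, 0 ≤ t → t ≤ 1 → γ t * δ t = 1)
    (h2 : ∀ t, 0 ≤ t → t ≤ 1 → δ t * γ t = 1) (hK : ∀ t, 0 ≤ t → t ≤ 1 → ‖δ t‖ ≤ K)
    (hL : ∀ s t, 0 ≤ s → s ≤ 1 → 0 ≤ t → t ≤ 1 → ‖γ s - γ t‖ ≤ L * |s - t|) :
    ∃ g, Triv n g ∧ γ 0 = g * γ 1 := by
  have hK0 : 0 ≤ K := (norm_nonneg _).trans (hK 0 le_rfl zero_le_one)
  have hL0 : 0 ≤ L := by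
    have h3 := hL 0 1 le_rfl zero_le_one zero_le_one le_rfl
    have h4 : |(0 : ℝ) - 1| = 1 := by norm_num
    rw [h4, mul_one] at h3
    exact (norm_nonneg _).trans h3
  have hn' : (0 : ℝ) < n := by exact_mod_cast hn
  have key : ∀ k : ℕ, k ≤ n → ∃ g, Triv k g ∧ γ 0 = g * γ ((k : ℝ) / n) := by
    intro k
    induction k with
    | zero =>
      intro _
      exact ⟨1, rfl, by simp⟩
    | succ k ih =>
      intro hk
      obtain ⟨g, hg, hg2⟩ := ih (by omega)
      have hkn : (k : ℝ) + 1 ≤ n := by exact_mod_cast hk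
      have t0 : 0 ≤ (k : ℝ) / n := by positivity
      have t1 : (k : ℝ) / n ≤ 1 := by rw [div_le_one hn']; linarith
      have s0 : 0 ≤ ((k + 1 : ℕ) : ℝ) / n := by positivity
      have s1 : ((k + 1 : ℕ) : ℝ) / n ≤ 1 := by
        rw [div_le_one hn']; push_cast; exact hkn
      set t := (k : ℝ) / n with ht
      set s := ((k + 1 : ℕ) : ℝ) / n with hs
      have hst : |t - s| = 1 / n := by
        rw [ht, hs]
        push_cast
        rw [show (k : ℝ) / n - ((k : ℝ) + 1) / n = -(1 / n) by field_simp; ring, abs_neg,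
          abs_of_pos (by positivity)]
      have hstep : γ t = (γ t * δ s) * γ s := by
        rw [mul_assoc, h2 s s0 s1, mul_one]
      have hB : UT (γ t * δ s) := UT_mul (hU t t0 t1) (hU' s s0 s1)
      have hB2 : ‖γ t * δ s - 1‖ ≤ 1 / 2 := by
        have e : γ t * δ s - 1 = (γ t - γ s) * δ s := by
          rw [sub_mul, h1 s s0 s1]
        rw [e]
        calc ‖(γ t - γ s) * δ s‖ ≤ ‖γ t - γ s‖ * ‖δ s‖ := norm_mul_le _ _
          _ ≤ (L * |t - s|) * K := by
              gcongr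
              · exact hL t s t0 t1 s0 s1
              · exact hK s s0 s1
          _ = K * L / n := by rw [hst]; ring
          _ ≤ 1 / 2 := by
              rw [div_le_iff₀ hn']
              linarith
      refine ⟨g * (γ t * δ s), Triv_mul hg (Triv_one_of hB hB2), ?_⟩
      rw [hg2, mul_assoc, ← hstep]
  obtain ⟨g, hg, hg2⟩ := key n le_rfl
  refine ⟨g, hg, ?_⟩
  rw [hg2, div_self hn'.ne']

end

end Pool.Agent.Helper534.NS
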